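import Pool.Agent.H.MP_fa5791_lc.J

set_option autoImplicit false

namespace Pool.Agent.Results.MP_55a818_lc.Q1No

open Pool.Agent.H.MP_fa5791_lc Pool.Agent.Lib.helper21.PR

/-- Some c.e. degree is not the degree of categoricity of any computable Polish space. -/
theorem result : ∃ D : ℕ → Bool, REPred (D · = true) ∧
    ∀ (b : Bool) (X : Type) [TopologicalSpace X], CPolish X → ¬ IsDeg b D X := by
  obtain ⟨A, a1, a2, a3⟩ := low_simple
  refine ⟨A, (r_pw a1).re, fun b X _ h k => ?_⟩
  cases finite_or_infinite X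
  · refine a2 (CI.of_orc (k.2 O fun M N ⟨e⟩ ⟨f⟩ => ?_))
    have := Finite.of_equiv _ e.toEquiv.symm
    have := Finite.of_equiv _ f.toEquiv.symm
    exact ⟨e.trans f.symm, fin_cat M.pres N.pres.1, fun _ => fin_cat N.pres M.pres.1⟩
  · obtain ⟨M, N, c, d, e⟩ := main' h a3
    obtain ⟨f, g, -⟩ := k.1 M N c d
    exact e f g

end Pool.Agent.Results.MP_55a818_lc.Q1No
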