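import Pool.Agent.H.MP_fa5791_lc.J

set_option autoImplicit false

namespace Pool.Agent.Results.MP_55a818_lc.Q2Yes

open Pool.Agent.H.MP_fa5791_lc Pool.Agent.Lib.helper21.PR

attribute [local irreducible] Primrec Computable

/-- Some noncomputable c.e. degree is the degree of categoricity of a computable Polish space. -/
theorem result : ∃ D : ℕ → Bool, REPred (D · = true) ∧ ¬ Computable D ∧
    ∃ (X : Type) (_ : TopologicalSpace X), CPolish X ∧ ∀ b, IsDeg b D X := by
  have p : Pres (id : ℕ → ℕ) := pres_iff.2 ⟨denseRange_id, by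
    simpa [dy, Nat.dist_eq] using (by fun_prop : CR fun z : ℕ × ℕ => |dy z.1 0 - dy z.2 0|)⟩
  have r := ri_re (J_ri O)
  refine ⟨J O, (r_pw r).re, fun h => ?_, ℕ, inferInstance, ⟨⟨ℕ, inferInstance, id, p⟩, ⟨.refl _⟩⟩,
    fun b => ⟨fun M N ⟨e⟩ ⟨e'⟩ => ?_, fun A h => ?_⟩⟩
  · obtain ⟨A, a1, a2, -⟩ := low_simple
    exact a2 (((i_re (r_pw a1)).un.jump.trans (Computable.ci h)).of_eq fun n => by
      rw [Bool.eq_iff_iff, cd_true])
  · have := e.isEmbedding.discreteTopology
    have := e'.isEmbedding.discreteTopology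
    have := e.toEquiv.infinite_iff.2 inferInstance
    have := e'.toEquiv.infinite_iff.2 inferInstance
    have := Fact.mk M.pres
    have := Fact.mk N.pres
    obtain ⟨f, a1, a2, a3⟩ := inj_list (c := M.c)
    obtain ⟨g, b1, b2, b3⟩ := inj_list (c := N.c)
    rw [denseRange_discrete] at a3 b3
    let u := Equiv.ofBijective _ ⟨a2, a3⟩
    let v := Equiv.ofBijective _ ⟨b2, b3⟩
    exact ⟨(u.symm.trans v).toHomeomorphOfDiscrete, nat_cat M.pres a1 b1 a3 fun m => congrArg v
      (u.symm_apply_apply m), fun _ => nat_cat N.pres b1 a1 b3 fun m => congrArg u (v.symm_apply_apply m)⟩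
  · obtain ⟨N, N', _, _, c, d, h1, h2, h3, h4, h5, h6, h7⟩ := caseI p (fun x => subset_closure
      (isOpen_discrete {x})) r
    obtain ⟨f, g, -⟩ := h ⟨N, h1, c, h3⟩ ⟨N', h2, d, h4⟩ h5 h6
    exact CI.orc ((ci_dec (i_re (r_pw r)) (i_pw (h7 A f g)) fun _ => .rfl).of_eq fun n => by
      rw [Bool.eq_iff_iff, cd_true])

end Pool.Agent.Results.MP_55a818_lc.Q2Yes
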